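import Mathlib
import Pool.Agent.Lib.MP_a2b538_an.LP.Asm

namespace Pool.Agent.Results.MP_a2b538_an.EllP

open Filter Topology

variable {𝕜 : Type} [RCLike 𝕜] {X : Type} [NormedAddCommGroup X] [NormedSpace 𝕜 X]

/-- fundamental, biorthogonal, semi-normalized, M-bounded -/
def IsBasis (e : ℕ → X) (f : ℕ → X →L[𝕜] 𝕜) : Prop :=
  Dense (Submodule.span 𝕜 (Set.range e) : Set X) ∧
    (∀ n k, f n (e k) = if n = k then 1 else 0) ∧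
    (∃ c C : ℝ, 0 < c ∧ ∀ n, c ≤ ‖e n‖ ∧ ‖e n‖ ≤ C) ∧
    (∃ M : ℝ, ∀ n, ‖e n‖ * ‖f n‖ ≤ M)

/-- every greedy series converges to the vector -/
def IsQuasiGreedy (e : ℕ → X) (f : ℕ → X →L[𝕜] 𝕜) : Prop :=
  ∀ (x : X) (D : Set ℕ) (ρ : ℕ → ℕ), IsLowerSet D → Set.InjOn ρ D → ρ '' D = {n | f n x ≠ 0} →
    (∀ j ∈ D, ∀ k ∈ D, j < k → ‖f (ρ k) x‖ ≤ ‖f (ρ j) x‖) →
    Tendsto (fun N => ∑ j ∈ Finset.range N, D.indicator (fun j => f (ρ j) x • e (ρ j)) j)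
      atTop (𝓝 x)

/-- every vector has a unique norm-convergent expansion -/
def IsSchauderBasis (𝕜 : Type) [RCLike 𝕜] [NormedSpace 𝕜 X] (y : ℕ → X) : Prop :=
  ∀ x : X, ∃! a : ℕ → 𝕜, Tendsto (fun N => ∑ n ∈ Finset.range N, a n • y n) atTop (𝓝 x)

theorem result (𝕜 : Type) [RCLike 𝕜] (p : ENNReal) [Fact (1 ≤ p)] (h1 : 1 < p) (h2 : p ≠ ⊤)
    (h3 : p ≠ 2) (X : Type) [NormedAddCommGroup X] [NormedSpace 𝕜 X]
    (T : X ≃L[𝕜] lp (fun _ : ℕ => 𝕜) p) :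
    ∃ (e : ℕ → X) (f : ℕ → X →L[𝕜] 𝕜),
      IsBasis e f ∧ IsQuasiGreedy e f ∧ ∀ π : ℕ ≃ ℕ, ¬ IsSchauderBasis 𝕜 (fun n => e (π n)) := by
  obtain ⟨e0, f0, C0, h0⟩ := Lib.MP_a2b538_an.LP.exists_mod (𝕜 := 𝕜) p h1 h2 h3
  have : CompleteSpace X := (T.isUniformEmbedding.isUniformInducing.completeSpace_congr
    T.surjective).2 inferInstance
  obtain ⟨e, f, C, h⟩ : ∃ (e : ℕ → X) (f : ℕ → X →L[𝕜] 𝕜) (C : ℝ),
    Lib.MP_a2b538_an.LP.Mod e f C := ⟨_, _, h0.transfer T⟩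
  have hC : 0 < C := by linarith [h.one]
  refine ⟨e, f, ⟨h.dense, h.bi, ⟨1 / C, C, by positivity, fun n => ⟨?_, h.up n⟩⟩, C * C,
    fun n => ?_⟩, fun x D ρ _ h2 h3 h4 => h.quasi x D ρ h2 h3 h4,
    fun π hπ => h.not_schauder π fun x => (hπ x).exists⟩
  · have := h.co n (e n)
    rw [h.bi, if_pos rfl, norm_one] at this
    rwa [div_le_iff₀' hC]
  · exact mul_le_mul (h.up n) ((f n).opNorm_le_bound hC.le (h.co n)) (norm_nonneg _) hC.le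

end Pool.Agent.Results.MP_a2b538_an.EllP
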