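import Mathlib
import Pool.Agent.Lib.MP_a2b538_an.HS.Main

namespace Pool.Agent.Results.MP_a2b538_an.HilbertSchauder

open Filter Topology

variable {𝕜 : Type} [RCLike 𝕜] {X : Type} [NormedAddCommGroup X] [NormedSpace 𝕜 X]

/-- fundamental, biorthogonal, semi-normalized, M-bounded -/
def IsBasis (e : ℕ → X) (f : ℕ → X →L[𝕜] 𝕜) : Prop :=
  Dense (Submodule.span 𝕜 (Set.range e) : Set X) ∧
    (∀ n k, f n (e k) = if n = k then 1 else 0) ∧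
    (∃ c C : ℝ, 0 < c ∧ ∀ n, c ≤ ‖e n‖ ∧ ‖e n‖ ≤ C) ∧
    (∃ M : ℝ, ∀ n, ‖e n‖ * ‖f n‖ ≤ M)

/-- every greedy series converges to the vector -/
def IsQuasiGreedy (e : ℕ → X) (f : ℕ → X →L[𝕜] 𝕜) : Prop :=
  ∀ (x : X) (D : Set ℕ) (ρ : ℕ → ℕ), IsLowerSet D → Set.InjOn ρ D → ρ '' D = {n | f n x ≠ 0} →
    (∀ j ∈ D, ∀ k ∈ D, j < k → ‖f (ρ k) x‖ ≤ ‖f (ρ j) x‖) →
    Tendsto (fun N => ∑ j ∈ Finset.range N, D.indicator (fun j => f (ρ j) x • e (ρ j)) j)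
      atTop (𝓝 x)

/-- every vector has a unique norm-convergent expansion -/
def IsSchauderBasis (𝕜 : Type) [RCLike 𝕜] [NormedSpace 𝕜 X] (y : ℕ → X) : Prop :=
  ∀ x : X, ∃! a : ℕ → 𝕜, Tendsto (fun N => ∑ n ∈ Finset.range N, a n • y n) atTop (𝓝 x)

theorem result (𝕜 : Type) [RCLike 𝕜] (H : Type) [NormedAddCommGroup H] [InnerProductSpace 𝕜 H]
    [CompleteSpace H] (e : ℕ → H) (f : ℕ → H →L[𝕜] 𝕜) (hb : IsBasis e f)
    (hq : IsQuasiGreedy e f) : ∃ π : ℕ ≃ ℕ, IsSchauderBasis 𝕜 (fun n => e (π n)) := by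
  obtain ⟨hd, bi, ⟨c, C, hc, h1⟩, M, hM⟩ := hb
  have hΦ : 0 < |M| / c + 1 := by positivity
  have hf : ∀ n x, ‖f n x‖ ≤ (|M| / c + 1) * ‖x‖ := fun n x => by
    refine ((f n).le_opNorm x).trans (mul_le_mul_of_nonneg_right ?_ (norm_nonneg _))
    have h2 : ‖f n‖ ≤ |M| / c := by
      rw [le_div_iff₀ hc]
      have := mul_le_mul_of_nonneg_right (h1 n).1 (norm_nonneg (f n))
      linarith [hM n, le_abs_self M]
    linarith
  obtain ⟨K, hK, h2⟩ := Lib.MP_a2b538_an.HS.uniform hd bi hΦ hf (fun n => (h1 n).2)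
    fun x => Lib.MP_a2b538_an.HS.pointwise hd bi hΦ hf x (hq x)
  obtain ⟨K', h3⟩ := Lib.MP_a2b538_an.HS.exists_good (by linarith) hc h1
    (Lib.MP_a2b538_an.HS.gr_of_gap bi hK h2)
  obtain ⟨π, hπ⟩ := h3.schauder hd bi
  exact ⟨π, fun x => ⟨fun n => f (π n) x, hπ x, fun a ha =>
    funext (Lib.MP_a2b538_an.HS.coeff_unique bi π ha)⟩⟩

end Pool.Agent.Results.MP_a2b538_an.HilbertSchauder
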