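import Mathlib
import Pool.Agent.Lib.MP_a2b538_an.AP.Fin

namespace Pool.Agent.Results.MP_a2b538_an.NoApproximation

open Filter Topology

variable {𝕜 : Type} [RCLike 𝕜] {X : Type} [NormedAddCommGroup X] [NormedSpace 𝕜 X]

/-- fundamental, biorthogonal, semi-normalized, M-bounded -/
def IsBasis (e : ℕ → X) (f : ℕ → X →L[𝕜] 𝕜) : Prop :=
  Dense (Submodule.span 𝕜 (Set.range e) : Set X) ∧
    (∀ n k, f n (e k) = if n = k then 1 else 0) ∧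
    (∃ c C : ℝ, 0 < c ∧ ∀ n, c ≤ ‖e n‖ ∧ ‖e n‖ ≤ C) ∧
    (∃ M : ℝ, ∀ n, ‖e n‖ * ‖f n‖ ≤ M)

/-- every greedy series converges to the vector -/
def IsQuasiGreedy (e : ℕ → X) (f : ℕ → X →L[𝕜] 𝕜) : Prop :=
  ∀ (x : X) (D : Set ℕ) (ρ : ℕ → ℕ), IsLowerSet D → Set.InjOn ρ D → ρ '' D = {n | f n x ≠ 0} →
    (∀ j ∈ D, ∀ k ∈ D, j < k → ‖f (ρ k) x‖ ≤ ‖f (ρ j) x‖) →
    Tendsto (fun N => ∑ j ∈ Finset.range N, D.indicator (fun j => f (ρ j) x • e (ρ j)) j)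
      atTop (𝓝 x)

/-- every vector has a unique norm-convergent expansion -/
def IsSchauderBasis (𝕜 : Type) [RCLike 𝕜] [NormedSpace 𝕜 X] (y : ℕ → X) : Prop :=
  ∀ x : X, ∃! a : ℕ → 𝕜, Tendsto (fun N => ∑ n ∈ Finset.range N, a n • y n) atTop (𝓝 x)

/-- the approximation property: on compact sets the identity is a uniform limit of continuous
finite-rank operators -/
def HasAP (𝕜 X : Type) [RCLike 𝕜] [NormedAddCommGroup X] [NormedSpace 𝕜 X] : Prop :=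
  ∀ K : Set X, IsCompact K → ∀ ε : ℝ, 0 < ε →
    ∃ T : X →L[𝕜] X, FiniteDimensional 𝕜 T.range ∧ ∀ x ∈ K, ‖T x - x‖ ≤ ε

/-- the compact approximation property: the same with compact operators -/
def HasCompactAP (𝕜 X : Type) [RCLike 𝕜] [NormedAddCommGroup X] [NormedSpace 𝕜 X] : Prop :=
  ∀ K : Set X, IsCompact K → ∀ ε : ℝ, 0 < ε →
    ∃ T : X →L[𝕜] X, IsCompactOperator T ∧ ∀ x ∈ K, ‖T x - x‖ ≤ ε

theorem result (𝕜 : Type) [RCLike 𝕜] :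
    ∃ (X : Type) (_ : NormedAddCommGroup X) (_ : NormedSpace 𝕜 X) (_ : CompleteSpace X)
      (e : ℕ → X) (f : ℕ → X →L[𝕜] 𝕜),
      IsBasis e f ∧ IsQuasiGreedy e f ∧ ¬ HasCompactAP 𝕜 X ∧ ¬ HasAP 𝕜 X ∧
        (∀ y : ℕ → X, ¬ IsSchauderBasis 𝕜 y) ∧
        ∀ π : ℕ ≃ ℕ, ¬ IsSchauderBasis 𝕜 (fun n => e (π n)) := by
  choose L hL using Lib.MP_a2b538_an.AP.exists_lev
  have hS := Lib.MP_a2b538_an.AP.small_of hL
  obtain ⟨X, i1, i2, i3, e, f, h⟩ := Lib.MP_a2b538_an.AP.exists_model 𝕜 hS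
  obtain ⟨K, hK, hK'⟩ := Lib.MP_a2b538_an.AP.not_cap hL h
  have h1 : ¬ HasCompactAP 𝕜 X := fun hc => by
    obtain ⟨T, hT, hT'⟩ := hc K hK (1 / 20) (by norm_num)
    exact hK' T hT hT'
  have h2 : ¬ HasAP 𝕜 X := fun hc => h1 fun K hK ε hε => by
    obtain ⟨T, hT, hT'⟩ := hc K hK ε hε
    exact ⟨T, Lib.MP_a2b538_an.AP.compact_of_finite T hT, hT'⟩
  have h3 : ∀ y : ℕ → X, ¬ IsSchauderBasis 𝕜 y := fun y hy =>
    h2 fun K hK ε hε => Lib.MP_a2b538_an.AP.ap_of_schauder y hy hK hε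
  refine ⟨X, i1, i2, i3, e, f, ⟨h.dense, h.bi, ⟨1, 6, one_pos, h.norm_e hS⟩, 6, fun n => ?_⟩,
    fun x D ρ a1 a2 a3 a4 => h.quasi hS x D ρ a1 a2 a3 a4, h1, h2, h3, fun π => h3 _⟩
  have h1 : ‖f n‖ ≤ 1 := (f n).opNorm_le_bound zero_le_one (fun x => by
    rw [one_mul]; exact h.coord_le x n)
  calc ‖e n‖ * ‖f n‖ ≤ 6 * 1 := mul_le_mul (h.norm_e hS n).2 h1 (norm_nonneg _) (by norm_num)
    _ = 6 := by norm_num

end Pool.Agent.Results.MP_a2b538_an.NoApproximation
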